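import Pool.Agent.H69.GN.Stm

set_option autoImplicit false

/-! # Crew GN, parts RNI, RUN, TOR -/

namespace Pool.Agent.H12.GN

open Finset Pool.Agent.H69.GN

theorem t_RNI : S_RNI := by
  intro V P r t hV hr hrq hF
  obtain ⟨F1, F2, F3, F4, F5, F5', F5'', F6, F7⟩ := hF
  have key : ∀ p ∈ insert t (V ∪ P), ∀ q ∈ insert t (V ∪ P), p ∣ q - 1 →
      (q = t ∧ (p = r ∨ p ∈ P)) ∨ (q ≠ t ∧ p ∈ V ∧ q ∈ V ∧ p ≠ r) := by
    intro p hp q hq hpq
    rw [mem_insert] at hp hq
    rcases hp with rfl | hp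
    · exfalso
      rcases hq with rfl | hq
      · have h1 := Nat.le_of_dvd (by omega) hpq
        omega
      · exact F7 q hq hpq
    · rcases hq with rfl | hq
      · exact Or.inl ⟨rfl, (F6 p hp).mp hpq⟩
      · right
        have hqt : q ≠ t := fun h => F5'' (h ▸ hq)
        rw [mem_union] at hp
        rcases hp with hp | hp
        · rcases mem_union.mp hq with hq | hq
          · exact ⟨hqt, hp, hq, fun h => hrq q hq (h ▸ hpq)⟩
          · exact absurd hpq (F4 p hp q hq)
        · exact absurd hpq (F3 p hp q hq)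
  refine ⟨?_, ?_⟩
  · intro p hp
    rw [mem_insert, mem_union] at hp
    rcases hp with rfl | hp | hp
    · exact ⟨F5, F5'⟩
    · exact hV.1 p hp
    · exact F1 p hp
  · intro p hp q hq q' hq' h h'
    rcases key p hp q hq h with ⟨h1, h2⟩ | ⟨h1, h2, h3, h4⟩ <;>
    rcases key p hp q' hq' h' with ⟨g1, g2⟩ | ⟨g1, g2, g3, g4⟩
    · rw [h1, g1]
    · rcases h2 with h2 | h2
      · exact absurd h2 g4
      · exact absurd h2 (disjoint_left.mp F2 g2)
    · rcases g2 with g2 | g2
      · exact absurd g2 h4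
      · exact absurd g2 (disjoint_left.mp F2 h2)
    · exact hV.2 p h2 q h3 q' g3 h h'

theorem t_RUN : S_RUN := by
  intro V P r t hV hr hrq hF
  obtain ⟨F1, F2, F3, F4, F5, F5', F5'', F6, F7⟩ := hF
  unfold f
  congr 1
  ext D
  rw [mem_filter, mem_filter, mem_powerset, mem_powerset]
  constructor
  · rintro ⟨h1, h2⟩
    have h3 : D ⊆ V := by
      intro p hp
      rcases mem_union.mp (h1 hp) with h | h
      · exact h
      · obtain ⟨q, hq, hpq⟩ := h2 p hp
        exact absurd hpq (F3 p h q (mem_sdiff.mp hq).1)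
    refine ⟨h3, fun p hp => ?_⟩
    obtain ⟨q, hq, hpq⟩ := h2 p hp
    rw [mem_sdiff] at hq
    rcases mem_union.mp hq.1 with h | h
    · exact ⟨q, mem_sdiff.mpr ⟨h, hq.2⟩, hpq⟩
    · exact absurd hpq (F4 p (h3 hp) q h)
  · rintro ⟨h1, h2⟩
    refine ⟨h1.trans subset_union_left, fun p hp => ?_⟩
    obtain ⟨q, hq, hpq⟩ := h2 p hp
    rw [mem_sdiff] at hq
    exact ⟨q, mem_sdiff.mpr ⟨mem_union_left _ hq.1, hq.2⟩, hpq⟩

theorem card_tor_prime (q : ℕ) (hq : q.Prime) (d : ℕ) :
    Nat.card {x : (ZMod q)ˣ // x ^ d = 1} = Nat.gcd d (q - 1) := by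
  haveI : Fact q.Prime := ⟨hq⟩
  have h := IsCyclic.card_powMonoidHom_ker (G := (ZMod q)ˣ) d
  have h1 : Nat.card (ZMod q)ˣ = q - 1 := by
    rw [Nat.card_eq_fintype_card, ZMod.card_units_eq_totient, Nat.totient_prime hq]
  rw [h1, Nat.gcd_comm] at h
  rw [← h]
  rfl

theorem t_TOR : S_TOR := by
  intro W
  classical
  induction W using Finset.induction_on with
  | empty =>
    intro _ d _
    rw [prod_empty]
    have h1 : Nat.card {x : (ZMod (∏ q ∈ (∅ : Finset ℕ), q))ˣ // x ^ d = 1} = 1 := by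
      rw [Nat.card_eq_one_iff_unique]
      have hs : Subsingleton (ZMod (∏ q ∈ (∅ : Finset ℕ), q)) := by
        rw [prod_empty]
        infer_instance
      exact ⟨⟨fun a b => Subtype.ext (Units.ext (Subsingleton.elim _ _))⟩, ⟨⟨1, one_pow d⟩⟩⟩
    exact h1
  | insert q W hq ih =>
    intro hW d hd
    have hqp : q.Prime := hW q (mem_insert_self _ _)
    have ihW := ih (fun p hp => hW p (mem_insert_of_mem hp)) d hd
    rw [prod_insert (f := fun q => Nat.gcd d (q - 1)) hq, ← ihW, ← card_tor_prime q hqp d]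
    have hprod : ∏ p ∈ insert q W, p = q * ∏ p ∈ W, p := prod_insert hq
    have hco : Nat.Coprime q (∏ p ∈ W, p) := by
      rw [Nat.coprime_prod_right_iff]
      intro p hp
      rw [Nat.coprime_primes hqp (hW p (mem_insert_of_mem hp))]
      rintro rfl
      exact hq hp
    rw [hprod, ← Nat.card_prod]
    let e : (ZMod (q * ∏ p ∈ W, p))ˣ ≃* (ZMod q)ˣ × (ZMod (∏ p ∈ W, p))ˣ :=
      (Units.mapEquiv (ZMod.chineseRemainder hco).toMulEquiv).trans MulEquiv.prodUnits
    refine Nat.card_congr ?_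
    exact
      { toFun := fun x => (⟨(e x.1).1, by
            have := congrArg Prod.fst (map_pow e x.1 d)
            rw [x.2, map_one] at this
            exact this.symm⟩, ⟨(e x.1).2, by
            have := congrArg Prod.snd (map_pow e x.1 d)
            rw [x.2, map_one] at this
            exact this.symm⟩)
        invFun := fun y => ⟨e.symm (y.1.1, y.2.1), by
            rw [← map_pow]
            have : ((y.1.1, y.2.1) : (ZMod q)ˣ × (ZMod (∏ p ∈ W, p))ˣ) ^ d = 1 :=
              Prod.ext y.1.2 y.2.2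
            rw [this, map_one]⟩
        left_inv := fun x => Subtype.ext (by simp)
        right_inv := fun y => by
          apply Prod.ext <;> apply Subtype.ext <;> simp }

end Pool.Agent.H12.GN
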